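import Pool.Agent.H56.E.Base
import Pool.Agent.H56.G3.TR
import Pool.Agent.H93.GS.Targets

/-!
# Theorem (H), MP_c59857_nt, section 3b with decoupled prime numbers: the stretch (targets)

`Nt S t` is the length of the window of `t`; the windows of `t` and of `t - l p` correspond to
each other. The energy, the tests and the changes of the energy are summed over a stretch of the
logarithmic scale.
-/

set_option autoImplicit false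

namespace Pool.Agent.H56.E.H56.G3

open Pool.Agent.H56.G3

open Finset Pool.Agent.H6.N4D Pool.Agent.H78.GX.H6.N4D Pool.Agent.H93.EB Pool.Agent.H93.GS

/-- the length of the window of `t` -/
noncomputable def Nt (S : Par) (t : ℤ) : ℕ := ⌊S.rho * S.n t⌋₊

/-- the largest sum of tests of the window `(v, v + 2 ^ m]` with one frequency -/
noncomputable def zs (lam : ℕ → ℝ) (m v : ℕ) : ℝ :=
  ⨆ α : ℝ, ∑ q ∈ QQ m, 1 / (q : ℝ) * zz lam q (2 ^ m) v α (fun _ => 1) ^ 2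

/-- the changes of the energy of the window `(v, v + 2 ^ m]` -/
noncomputable def ts (th : ℝ) (lam : ℕ → ℝ) (m v : ℕ) : ℝ :=
  ∑ q ∈ QQ m, 1 / (q : ℝ) * |En th lam q (2 ^ m) v - En th lam 1 (2 ^ m) v|

/-- the levels: the primes of the levels `lv X 0, ..., lv X (2 K + 1)` contain those of
`(P, P ^ (2 K)]` -/
noncomputable def lv (X : ℝ) (i : ℕ) : ℕ := 400 * ⌊LL X / Real.log 2⌋₊ * 2 ^ i

/-- the sum over the stretch -/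
noncomputable def sS (S : Par) (F : ℕ → ℝ) : ℝ :=
  ∑ n ∈ Ico (S.n S.a) (S.n S.b), F n / n

/-- the conditions on the stretch; the prime numbers `(P, P ^ (2 K)]` are small compared with
the windows, and the windows are small compared with the numbers of the stretch -/
structure Str3 (S : Par) (K r k₁ : ℕ) : Prop where
  ok : Pool.Agent.H78.GX.Okx S
  hK : S.K = K
  xa : ((2 : ℝ) ^ k₁) ^ 4 ≤ S.x S.a
  rh : S.rho * (8 * S.x S.b) = 2 ^ (k₁ - r)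
  rk : r ≤ k₁
  k0 : (2 : ℝ) ^ (2 * K + 12) * S.L ≤ k₁
  ln : 25 / 2 * S.K * S.L ≤ S.N * S.h

/-- the window of `t` is good: small gaps, small tests, small changes of the energy, for the
window `(n t, n t + w Nt t]`, `w = 1, 2` -/
def Gt (th κ : ℝ) (lam : ℕ → ℝ) (S : Par) (t : ℤ) : Prop :=
  ∀ i < 2 * S.K + 2, ∀ w : ℕ, w = 1 ∨ w = 2 →
    sl (w * Nt S t) (S.n t) (En th lam 1 (2 ^ lv S.X i)) -
      En th lam 1 (w * Nt S t) (S.n t) ≤ κ ∧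
    sl (w * Nt S t) (S.n t) (fun v => zs lam (lv S.X i) v + ts th lam (lv S.X i) v) ≤ κ

/-- WQ. The weights of the levels are bounded. -/
def T_WQ : Prop := ∃ W : ℝ, 1 ≤ W ∧ ∀ m : ℕ, ∑ q ∈ QQ m, 1 / (q : ℝ) ≤ W

/-- SF. Sliding windows of fixed length. -/
def T_SF : Prop := ∀ (F : ℕ → ℝ) (H A B : ℕ), (∀ n, |F n| ≤ 1) → 1 ≤ H → H ≤ A → A ≤ B →
  |∑ n ∈ Ico A B, sl H n F / n - ∑ n ∈ Ico A B, F n / n| ≤ 4 * H / A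

/-- SC. From the integers to the logarithmic scale. -/
def T_SC : Prop := ∀ (S : Par) (F : ℕ → ℝ), Pool.Agent.H78.GX.Okx S → 2 ≤ S.x S.a → 0 ≤ S.L → (∀ n, |F n| ≤ 1) →
  |S.h * ∑ t ∈ S.I, F (S.n t) - sS S F| ≤ 8 / S.x S.a + 4 * S.h * S.X

/-- SV. Sliding windows of the stretch. -/
def T_SV : Prop := ∀ (K : ℕ) (ε : ℝ), 1 ≤ K → 0 < ε → ∃ X₀ : ℝ,
  ∀ (S : Par) (r k₁ w : ℕ) (F : ℕ → ℝ), Str3 S K r k₁ → X₀ ≤ S.X → (w = 1 ∨ w = 2) →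
    (∀ n, |F n| ≤ 1) →
    |S.h * ∑ t ∈ S.I, sl (w * Nt S t) (S.n t) F - sS S F| ≤ ε * (S.N * S.h)

/-- SZ. The tests and the changes of the energy. -/
def T_SZ : Prop := ∀ (th W : ℝ) (lam : ℕ → ℝ) (m : ℕ), 0 < th → th ≤ 1 → B1 lam → 1 ≤ m →
  ∑ q ∈ QQ m, 1 / (q : ℝ) ≤ W →
  (∀ v, 0 ≤ zs lam m v ∧ zs lam m v ≤ 9 * W ∧ 0 ≤ ts th lam m v ∧ ts th lam m v ≤ 4 * W) ∧
  (∀ (v : ℕ) (α : ℝ),
    ∑ q ∈ QQ m, 1 / (q : ℝ) * zz lam q (2 ^ m) v α (fun _ => 1) ^ 2 ≤ zs lam m v) ∧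
  ∀ X : ℕ, 3 ≤ X → lg X (zs lam m) ≤ Pool.Agent.H72.EN.bA lam X m ∧
    lg X (ts th lam m) = ch th lam X m

/-- SW. The choice of the stretch. -/
def T_SW : Prop := ∀ (K r : ℕ) (A c : ℝ), 1 ≤ K → 1 ≤ A → 0 < c → ∃ X₀ : ℕ,
  ∀ (X u : ℕ) (U : ℕ → ℝ), X₀ ≤ X → Real.log X ^ (19 / 20 : ℝ) ≤ u * Real.log 2 →
    (2 : ℝ) ^ (2 * K + 12) * u ≤ Real.log X ^ (24 / 25 : ℝ) → (∀ n, U n ≤ A) →
    c * Real.log X ≤ lg X U →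
    ∃ S : Par, S.L = u * Real.log 2 ∧ (X : ℝ) ≤ S.X ∧ Str3 S K r (2 ^ (2 * K + 12) * u) ∧
      c / 2 * (S.N * S.h) ≤ sS S U

/-- SA1. The energy of the top level and the energy of the windows of the stretch. -/
def T_SA1 : Prop := ∀ th : ℝ, 0 < th → th ≤ 1 → ∀ (ε : ℝ) (K r : ℕ), 0 < ε → 1 ≤ K →
  ∃ X₁ : ℝ, ∀ (S : Par) (lam : ℕ → ℝ) (k₁ w : ℕ), Str3 S K r k₁ → X₁ ≤ S.X → B1 lam →
    (w = 1 ∨ w = 2) →
    sS S (En th lam 1 (2 ^ k₁)) ≤ S.h * ∑ t ∈ S.I, En th lam 1 (w * Nt S t) (S.n t) +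
      (8 / th ^ 2 * (1 / 2) ^ r + ε) * (S.N * S.h) ∧
    sS S (fun _ => 1) ≤ (1 + ε) * (S.N * S.h)

/-- SA2. The energies of the windows and of the levels. -/
def T_SA2 : Prop := ∀ th : ℝ, 0 < th → th ≤ 1 → ∀ (ε : ℝ) (K r : ℕ), 0 < ε → 1 ≤ K →
  ∃ X₁ : ℝ, ∀ (S : Par) (lam : ℕ → ℝ) (k₁ a w i : ℕ), Str3 S K r k₁ → X₁ ≤ S.X → B1 lam →
    (w = 1 ∨ w = 2) → (a : ℝ) ≤ 2 * S.L → i < 2 * K + 2 →
    S.h * ∑ t ∈ S.I, sl (w * Nt S t) (S.n t) (En th lam 1 (2 ^ lv S.X i)) ≤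
      sS S (En th lam 1 (2 ^ a)) + ε * (S.N * S.h) ∧
    sS S (En th lam 1 (2 ^ k₁)) ≤ sS S (En th lam 1 (2 ^ a)) + ε * (S.N * S.h) ∧
    ∀ t ∈ S.I, En th lam 1 (w * Nt S t) (S.n t) ≤
      sl (w * Nt S t) (S.n t) (En th lam 1 (2 ^ lv S.X i)) + ε

/-- SN. Sizes on the stretch. -/
def T_SN : Prop := ∀ (K r : ℕ) (A : ℝ), 1 ≤ K → ∃ X₁ : ℝ, ∀ (S : Par) (k₁ : ℕ),
  Str3 S K r k₁ → X₁ ≤ S.X → A ≤ S.L ∧ A ≤ S.N * S.h ∧ S.rho * 2 ^ k₁ ≤ 1 / 4 ∧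
    S.rho ≤ 1 / 100 ∧ A * S.rho ≤ 1 ∧
    (∀ t ∈ S.I, A ≤ Nt S t ∧ (Nt S t : ℝ) ≤ S.rho * S.n t ∧ S.rho * S.n t < Nt S t + 1 ∧
      (Nt S t : ℝ) * 8 ≤ 2 ^ (k₁ - r) ∧ A * 2 ^ k₁ ≤ S.n t ∧ (S.n t : ℝ) ≤ S.X ∧
      (∀ i < 2 * K + 2, A * 2 ^ lv S.X i ≤ Nt S t)) ∧
    (∀ i < 2 * K + 2, 400 ≤ lv S.X i ∧ 2 * S.L + A ≤ lv S.X i ∧ (lv S.X i : ℝ) ≤ k₁) ∧
    (∀ p ∈ S.Q, ∃ i < 2 * K + 2, p ∈ QQ (lv S.X i))

/-- SG. A stretch with good windows and large energy. -/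
def T_SG : Prop := ∀ th c : ℝ, 0 < th → th ≤ 1 → 0 < c → ∀ (K : ℕ) (κ ε : ℝ), 1 ≤ K →
  0 < κ → 0 < ε → ∃ (ε' : ℝ) (r : ℕ), 0 < ε' ∧ ∀ X₁ : ℝ, ∃ X₀ : ℕ,
  ∀ (X u : ℕ) (lam : ℕ → ℝ), X₀ ≤ X → Lio lam → Real.log X ^ (19 / 20 : ℝ) ≤ u * Real.log 2 →
    (2 : ℝ) ^ (2 * K + 12) * u ≤ Real.log X ^ (24 / 25 : ℝ) →
    (∀ i < 2 * K + 2, Hm th ε' lam X (400 * u * 2 ^ i)) →
    c ≤ te th lam X u → te th lam X u - ε' ≤ te th lam X (2 ^ (2 * K + 12) * u) →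
    ∃ S : Par, Str3 S K r (2 ^ (2 * K + 12) * u) ∧ X₁ ≤ S.X ∧
      S.cnt (fun t => ¬ Gt th κ lam S t) ≤ ε * S.N ∧
      c / 20 * S.N ≤ S.cnt (fun t => c / 20 ≤ En th lam 1 (Nt S t) (S.n t))

/-- SH. Near optimal sums of overlapping windows. -/
def T_SH : Prop := ∀ (th κ : ℝ) (K r : ℕ), 0 < th → th ≤ 1 → 0 < κ → κ ≤ 1 → 1 ≤ K →
  ∃ X₀ : ℝ, ∀ (S : Par) (k₁ : ℕ) (lam : ℕ → ℝ) (t : ℤ) (w : ℕ) (g g' : Ex),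
    Str3 S K r k₁ → X₀ ≤ S.X → B1 lam → t ∈ S.I → t + (w : ℤ) ∈ S.I →
    (w : ℝ) * S.h ≤ S.rho / 4 → Gt th κ lam S t → df th lam 1 (Nt S t) (S.n t) g ≤ κ →
    df th lam 1 (Nt S (t + w)) (S.n (t + w)) g' ≤ κ →
    S.n t ≤ S.n (t + w) ∧ S.n (t + w) ≤ S.n t + Nt S t ∧
    (Nt S t : ℝ) / 2 ≤ ((S.n t + Nt S t - S.n (t + w) : ℕ) : ℝ) ∧
    d2 1 (S.n t + Nt S t - S.n (t + w)) (S.n (t + w)) g g' ≤ 3000 * κ

/-- SB. The windows of a good stretch have near optimal sums with few separated frequencies. -/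
def T_SB : Prop := ∀ th Lam κ : ℝ, 0 < th → th ≤ 1 → 0 < Lam → 0 < κ → ∃ κ' : ℝ, 0 < κ' ∧
  ∀ K r : ℕ, 1 ≤ K → ∃ X₀ : ℝ, ∀ (S : Par) (k₁ : ℕ) (lam : ℕ → ℝ) (t : ℤ), Str3 S K r k₁ →
    X₀ ≤ S.X → B1 lam → t ∈ S.I → Gt th κ' lam S t →
    ∃ g : Ex, g.k ≤ r0 th ∧ Sp g (Lam / Nt S t) ∧ df th lam 1 (Nt S t) (S.n t) g ≤ κ

/-- E3r. The energy at a level `u` is small, if the tests of a geometric chain of levels above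
`u` are small and the energy is almost constant on a range of bounded ratio. -/
def T_E3r : Prop := ∀ th c : ℝ, 0 < th → th ≤ 1 → 0 < c → ∃ (ε : ℝ) (A X₀ : ℕ), 0 < ε ∧
  1 ≤ A ∧ ∀ (X u : ℕ) (lam : ℕ → ℝ), X₀ ≤ X → Lio lam →
    Real.log X ^ (19 / 20 : ℝ) ≤ u * Real.log 2 → (2 : ℝ) ^ A * u ≤ Real.log X ^ (24 / 25 : ℝ) →
    (∀ i < A, Hm th ε lam X (400 * u * 2 ^ i)) →
    te th lam X u - ε ≤ te th lam X (2 ^ A * u) → te th lam X u < c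

end Pool.Agent.H56.E.H56.G3
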