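import Pool.Agent.H56.E.Base
import Pool.Agent.H56.E.H56.G3.TS
import Pool.Agent.H78.GX.H78.GS.Defs

/-!
# Theorem (G), MP_c59857_nt, section 3b: edges, matching, the bundle (targets)
-/

set_option autoImplicit false

namespace Pool.Agent.H56.E.H56.G3

open Pool.Agent.H56.G3

open Finset Pool.Agent.H6.N4D Pool.Agent.H78.GX.H6.N4D Pool.Agent.H93.EB Pool.Agent.H93.GS

/-! ## matching of two sums of exponentials -/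

/-- IC. A coefficient of a sum with separated frequencies, and the correlation with a frequency
which is far from all its frequencies. -/
def T_IC : Prop := ∀ (g : Ex) (N n : ℕ) (Lam β : ℝ), 1 ≤ N → 0 < Lam →
  ((∀ i < g.k, Lam / N ≤ nd (g.a i - β)) → ‖cf N n g.f β‖ ≤ g.nm / Lam) ∧
  ∀ i < g.k, (∀ j < g.k, j ≠ i → Lam / N ≤ nd (g.a j - g.a i)) →
    ‖cf N n g.f (g.a i) - g.c i‖ ≤ g.nm / Lam

/-- II. The two nearest terms of two close sums are close in mean square. -/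
def T_II : Prop := ∀ (g h : Ex) (N n i j : ℕ) (Lam δ : ℝ), 1 ≤ N → 0 < Lam → i < g.k → j < h.k →
  (∀ i' < g.k, i' ≠ i → Lam / N ≤ nd (g.a i' - g.a i) ∧ Lam / N ≤ nd (g.a i' - h.a j)) →
  (∀ j' < h.k, j' ≠ j → Lam / N ≤ nd (h.a j' - h.a j) ∧ Lam / N ≤ nd (h.a j' - g.a i)) →
  d2 1 N n g h ≤ δ →
  (∑ m ∈ Ioc n (n + N), ‖g.c i * ee (g.a i * m) - h.c j * ee (h.a j * m)‖ ^ 2) / N ≤
    δ + 4 * (g.nm + h.nm) ^ 2 / Lam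

/-- IF. Two exponentials which are close in mean square have close frequencies and values. -/
def T_IF : Prop := ∀ A κp e : ℝ, 0 < A → 0 < κp → 0 < e → ∃ (δ : ℝ) (N₀ : ℕ), 0 < δ ∧
  ∀ (N n : ℕ) (c c' : ℂ) (a a' : ℝ), N₀ ≤ N → κp ≤ ‖c‖ → ‖c‖ ≤ A →
    (∑ m ∈ Ioc n (n + N), ‖c * ee (a * m) - c' * ee (a' * m)‖ ^ 2) / N ≤ δ →
    nd (a - a') ≤ e / N ∧ ‖c * ee (a * n) - c' * ee (a' * n)‖ ≤ e

/-- INV. Matching of two close sums with separated frequencies. -/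
def T_INV : Prop := ∀ A κp e : ℝ, 0 < A → 0 < κp → 0 < e → ∃ (Lam δ : ℝ) (N₀ : ℕ), 1 ≤ Lam ∧
  0 < δ ∧ ∀ (N n : ℕ) (g h : Ex), N₀ ≤ N → g.nm ≤ A → h.nm ≤ A → Sp g (Lam / N) →
    Sp h (Lam / N) → d2 1 N n g h ≤ δ → ∀ i < g.k, κp ≤ ‖g.c i‖ →
    ∃ j < h.k, nd (g.a i - h.a j) ≤ e / N ∧
      ‖g.c i * ee (g.a i * n) - h.c j * ee (h.a j * n)‖ ≤ e

/-! ## edges -/

/-- the image of `g` under the edge of `p` -/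
noncomputable def pb (p : ℕ) (g : Ex) : Ex := ⟨g.k, fun i => -g.c i, fun i => p * g.a i⟩

/-- EW. The windows of `t` and of `t - l p`. -/
def T_EW : Prop := ∀ K r : ℕ, 1 ≤ K → ∃ X₀ : ℝ, ∀ (S : Par) (k₁ : ℕ) (t : ℤ) (p : ℕ),
  Str3 S K r k₁ → X₀ ≤ S.X → t ∈ S.I → t - S.l p ∈ S.I → p ∈ S.Q →
    |(p : ℝ) * S.n (t - S.l p) - S.n t| ≤ 3 * p ∧
    |(p : ℝ) * Nt S (t - S.l p) - Nt S t| ≤ 3 * p

/-- EJ. The functional on the window of `t - l p` and on the multiples of `p` in the window of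
`t`. -/
def T_EJ : Prop := ∀ (th η : ℝ) (K r : ℕ), 0 < th → th ≤ 1 → 0 < η → 1 ≤ K → ∃ X₀ : ℝ,
  ∀ (S : Par) (k₁ : ℕ) (lam : ℕ → ℝ) (t : ℤ) (p : ℕ), Str3 S K r k₁ → X₀ ≤ S.X → Lio lam →
    t ∈ S.I → t - S.l p ∈ S.I → p ∈ S.Q →
    (∀ g : Ex, g.nm ≤ 2 / th →
      |J th lam 1 (Nt S (t - S.l p)) (S.n (t - S.l p)) (pb p g) -
        J th lam p (Nt S t) (S.n t) g| ≤ η) ∧
    En th lam 1 (Nt S (t - S.l p)) (S.n (t - S.l p)) ≤ En th lam p (Nt S t) (S.n t) + η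

/-- EQ. The energy on the multiples of `q` does not increase with the length. -/
def T_EQ : Prop := ∀ (th : ℝ) (lam : ℕ → ℝ) (q M N n : ℕ), 0 < th → th ≤ 1 → B1 lam → 1 ≤ q →
  q ≤ M → M ≤ N → En th lam q N n ≤ sl N n (En th lam q M) + 100 / th ^ 2 * (M / N)

/-- EZ. The test of a long window and the tests of its pieces. -/
def T_EZ : Prop := ∀ (lam : ℕ → ℝ) (q M N n : ℕ) (α : ℝ), B1 lam → 1 ≤ q → q ≤ M → M ≤ N →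
  zz lam q N n α (fun _ => 1) ^ 2 ≤
    2 * sl N n (fun v => zz lam q M v α (fun _ => 1) ^ 2) + 100 * (M / N)

/-- ER. The functional on the multiples of `p`. -/
def T_ER : Prop := ∀ (th Lam : ℝ) (lam : ℕ → ℝ) (p N n : ℕ) (g : Ex), 0 < th → 0 < Lam →
  B1 lam → 1 ≤ p → p ≤ N → Sp g (Lam / N) →
  (∀ i < g.k, ∀ j < g.k, i ≠ j → Lam * p / N ≤ nd (p * (g.a i - g.a j))) →
  |J th lam p N n g - J th lam 1 N n g| ≤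
    2 * ∑ i ∈ range g.k, ‖g.c i‖ * zz lam p N n (g.a i) (fun _ => 1) +
      g.nm ^ 2 * (1 / Lam + 2 * p / N)

open Classical in
/-- EB. Few primes are bad for given separated frequencies. -/
def T_EB : Prop := ∀ (P Lam : ℝ) (Q : Finset ℕ) (N : ℕ) (g : Ex), 1 ≤ P → 0 < Lam →
  (∀ p ∈ Q, p.Prime ∧ P ≤ p ∧ 2 * Lam * (p : ℝ) ^ 2 < N) →
  (∀ p ∈ Q, ∀ q ∈ Q, 2 * Lam * (p : ℝ) * q < N) → Sp g (Lam / N) →
  ∑ p ∈ Q.filter (fun p : ℕ => ¬ ∀ i < g.k, ∀ j < g.k, i ≠ j →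
    Lam / 2 * p / N ≤ nd (p * (g.a i - g.a j))), 1 / (p : ℝ) ≤ (g.k : ℝ) ^ 2 / P

/-- the prime `p` is good for `g` at `t` -/
def Gp (th κ Lam : ℝ) (lam : ℕ → ℝ) (S : Par) (g : Ex) (t : ℤ) (p : ℕ) : Prop :=
  df th lam 1 (Nt S (t - S.l p)) (S.n (t - S.l p)) (pb p g) ≤ κ ∧
    Sp (pb p g) (Lam / Nt S (t - S.l p))

open Classical in
/-- ED. Along most edges a near optimal sum is mapped to a near optimal sum. -/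
def T_ED : Prop := ∀ (th κ₂ ε Lam₁ : ℝ) (K : ℕ), 0 < th → th ≤ 1 → 0 < κ₂ → 0 < ε → 0 < Lam₁ →
  1 ≤ K → ∃ (κ Lam : ℝ), 0 < κ ∧ Lam₁ ≤ Lam ∧ ∀ r : ℕ, ∃ X₀ : ℝ, ∀ (S : Par) (k₁ : ℕ)
  (lam : ℕ → ℝ) (t : ℤ) (g : Ex), Str3 S K r k₁ → X₀ ≤ S.X → Lio lam → t ∈ S.I →
    Gt th κ lam S t → g.k ≤ r0 th → Sp g (Lam / Nt S t) →
    df th lam 1 (Nt S t) (S.n t) g ≤ κ →
    ∑ p ∈ S.Q.filter (fun p : ℕ => t - S.l p ∈ S.I ∧ ¬ Gp th κ₂ Lam₁ lam S g t p), 1 / (p : ℝ) ≤ ε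

/-! ## the bundle -/

/-- the phase of a complex number, in turns -/
noncomputable def ph (z : ℂ) : ℝ := Complex.arg z / (2 * Real.pi)

/-- BA. Phases of close complex numbers. -/
def T_BA : Prop := (∀ z : ℂ, z = ‖z‖ * ee (ph z)) ∧
  (∀ (κp e : ℝ) (z z' : ℂ), 0 < κp → κp ≤ ‖z‖ → ‖z - z'‖ ≤ e → nd (ph z - ph z') ≤ e / κp) ∧
  ∀ (z : ℂ) (x : ℝ), z ≠ 0 → nd (ph (z * ee x) - (ph z + x)) = 0

/-- BP. The choice of the threshold. -/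
def T_BP : Prop := ∀ (S : Par) (G : ℤ → Ex) (κ₀ : ℝ) (r₀ L : ℕ), 0 < κ₀ → 1 ≤ L → 0 ≤ S.N →
  (∀ t ∈ S.I, (G t).k ≤ r₀) → ∃ l < L, S.cnt (fun t => ∃ i < (G t).k,
    κ₀ / 4 ^ (l + 1) ≤ ‖(G t).c i‖ ∧ ‖(G t).c i‖ < κ₀ / 4 ^ l) ≤ r₀ / L * S.N

/-- the terms with large coefficients -/
noncomputable def Lg (κp : ℝ) (g : Ex) : Finset ℕ := (range g.k).filter fun i => κp ≤ ‖g.c i‖

/-- no coefficient is near the threshold -/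
def Nb (κp : ℝ) (g : Ex) : Prop := ∀ i < g.k, ¬ (κp / 2 ≤ ‖g.c i‖ ∧ ‖g.c i‖ < 2 * κp)

/-- the phase of a term at the beginning of the window -/
noncomputable def ps (g : Ex) (n i : ℕ) : ℝ := ph (g.c i * ee (g.a i * n))

/-- BS. The sheets of overlapping windows match. -/
def T_BS : Prop := ∀ (th κp e₀ : ℝ) (K : ℕ), 0 < th → th ≤ 1 → 0 < κp → 0 < e₀ → 1 ≤ K →
  ∃ κ Lam : ℝ, 0 < κ ∧ 1 ≤ Lam ∧ ∀ r : ℕ, ∃ X₀ : ℝ, ∀ (S : Par) (k₁ : ℕ) (lam : ℕ → ℝ) (t : ℤ)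
  (w : ℕ) (g g' : Ex), Str3 S K r k₁ → X₀ ≤ S.X → B1 lam → t ∈ S.I → t + (w : ℤ) ∈ S.I →
    (w : ℝ) * S.h ≤ S.rho / 4 → Gt th κ lam S t → Sp g (Lam / Nt S t) →
    Sp g' (Lam / Nt S (t + w)) → df th lam 1 (Nt S t) (S.n t) g ≤ κ →
    df th lam 1 (Nt S (t + w)) (S.n (t + w)) g' ≤ κ → Nb κp g → Nb κp g' →
    Pool.Agent.H78.GX.H78.GS.Mat (fun j i => nd (g'.a i - g.a j) ≤ e₀ / (S.rho * S.x t) ∧
      nd (ps g' (S.n (t + w)) i - (ps g (S.n t) j + g.a j * ((S.n (t + w) : ℝ) - S.n t))) ≤ e₀)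
      (Lg κp g) (Lg κp g')

/-- BE. The sheets of the windows of `t` and of `t - l p` match. -/
def T_BE : Prop := ∀ (th κp e₀ : ℝ) (K : ℕ), 0 < th → th ≤ 1 → 0 < κp → 0 < e₀ → 1 ≤ K →
  ∃ κ Lam : ℝ, 0 < κ ∧ 1 ≤ Lam ∧ ∀ r : ℕ, ∃ X₀ : ℝ, ∀ (S : Par) (k₁ : ℕ) (lam : ℕ → ℝ) (t : ℤ)
  (p : ℕ) (g g' : Ex), Str3 S K r k₁ → X₀ ≤ S.X → Lio lam → t ∈ S.I → t - S.l p ∈ S.I →
    p ∈ S.Q → Gp th κ Lam lam S g t p → Sp g' (Lam / Nt S (t - S.l p)) →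
    df th lam 1 (Nt S (t - S.l p)) (S.n (t - S.l p)) g' ≤ κ → Nb κp g → Nb κp g' →
    Pool.Agent.H78.GX.H78.GS.Mat (fun j i => nd (g'.a i - p * g.a j) ≤ p * e₀ / (S.rho * S.x t) ∧
      nd (ps g' (S.n (t - S.l p)) i -
        (ps g (S.n t) j + g.a j * (p * (S.n (t - S.l p) : ℝ) - S.n t) + 1 / 2)) ≤ e₀)
      (Lg κp g) (Lg κp g')

/-- BL. Large energy gives a large coefficient. -/
def T_BL : Prop := ∀ (th κ c : ℝ) (lam : ℕ → ℝ) (N n : ℕ) (g : Ex), 0 < th → th ≤ 1 → B1 lam →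
  1 ≤ N → c ≤ En th lam 1 N n → df th lam 1 N n g ≤ κ → κ ≤ c / 2 → 0 < c →
    ∃ i < g.k, c / (8 * g.k) ≤ ‖g.c i‖

/-- BN. The bundle. -/
def T_BN : Prop := ∀ (th c ε e₀ : ℝ) (K : ℕ), 0 < th → th ≤ 1 → 0 < c → 0 < ε → 0 < e₀ →
  1 ≤ K → ∃ κ ε₁ : ℝ, 0 < κ ∧ 0 < ε₁ ∧ ∀ r : ℕ, ∃ X₀ : ℝ, ∀ (S : Par) (k₁ : ℕ)
  (lam : ℕ → ℝ), Str3 S K r k₁ → X₀ ≤ S.X → Lio lam →
    S.cnt (fun t => ¬ Gt th κ lam S t) ≤ ε₁ * S.N →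
    c / 20 * S.N ≤ S.cnt (fun t => c / 20 ≤ En th lam 1 (Nt S t) (S.n t)) →
    ∃ (F : ℤ → Finset ℕ) (θ φ : ℤ → ℕ → ℝ),
      Pool.Agent.H78.GX.H78.GS.Bnd S ε e₀ (c / 40) (r0 th) F θ φ

end Pool.Agent.H56.E.H56.G3
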